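import Pool.Agent.H57.CP.Targets

/-!
# Modules CTR, NST, CHN: basic inequalities in hyperbolic space
-/

namespace Pool.Agent.H29.CPX

open Pool.Agent.H57.CP

/-- A vector orthogonal to a timelike vector is spacelike or null. -/
theorem mk_nonpos (z u : V4) (hu : 0 < mk u u) (h : mk z u = 0) : mk z z ≤ 0 := by
  have h1 : z 3 * u 3 = z 0 * u 0 + z 1 * u 1 + z 2 * u 2 := by
    unfold mk at h
    linarith
  have h2 : u 0 * u 0 + u 1 * u 1 + u 2 * u 2 < u 3 * u 3 := by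
    unfold mk at hu
    linarith
  have h0 : 0 ≤ u 0 * u 0 + u 1 * u 1 + u 2 * u 2 := by nlinarith [sq_nonneg (u 0), sq_nonneg (u 1), sq_nonneg (u 2)]
  have h3 : (z 0 * u 0 + z 1 * u 1 + z 2 * u 2) ^ 2 ≤
      (z 0 * z 0 + z 1 * z 1 + z 2 * z 2) * (u 0 * u 0 + u 1 * u 1 + u 2 * u 2) := by
    nlinarith [sq_nonneg (z 0 * u 1 - z 1 * u 0), sq_nonneg (z 0 * u 2 - z 2 * u 0), sq_nonneg (z 1 * u 2 - z 2 * u 1)]
  have h4 : 0 ≤ z 0 * z 0 + z 1 * z 1 + z 2 * z 2 := by nlinarith [sq_nonneg (z 0), sq_nonneg (z 1), sq_nonneg (z 2)]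
  have h5 : (z 3 * u 3) ^ 2 ≤ (z 0 * z 0 + z 1 * z 1 + z 2 * z 2) * (u 3 * u 3) := by
    rw [h1]
    exact h3.trans (mul_le_mul_of_nonneg_left h2.le h4)
  have h6 : 0 < u 3 * u 3 := lt_of_le_of_lt h0 h2
  have h7 : (z 3 * z 3) * (u 3 * u 3) ≤ (z 0 * z 0 + z 1 * z 1 + z 2 * z 2) * (u 3 * u 3) := by
    calc (z 3 * z 3) * (u 3 * u 3) = (z 3 * u 3) ^ 2 := by ring
      _ ≤ _ := h5
  have h8 := le_of_mul_le_mul_right h7 h6
  unfold mk
  linarith

theorem one_le_ch (x y : H3) : 1 ≤ ch x y := by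
  obtain ⟨x, hx, hx3⟩ := x
  obtain ⟨y, hy, hy3⟩ := y
  unfold ch
  unfold mk at *
  simp only
  by_contra hc
  push Not at hc
  have h0 : 0 < x 3 * y 3 := mul_pos hx3 hy3
  have h1 : x 3 * y 3 < 1 + (x 0 * y 0 + x 1 * y 1 + x 2 * y 2) := by linarith
  have h2 : (x 3 * y 3) ^ 2 < (1 + (x 0 * y 0 + x 1 * y 1 + x 2 * y 2)) ^ 2 := by
    exact pow_lt_pow_left₀ h1 h0.le (by norm_num)
  have h3 : x 3 * x 3 = 1 + (x 0 * x 0 + x 1 * x 1 + x 2 * x 2) := by linarith
  have h4 : y 3 * y 3 = 1 + (y 0 * y 0 + y 1 * y 1 + y 2 * y 2) := by linarith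
  have h5 : (x 3 * y 3) ^ 2 = (1 + (x 0 * x 0 + x 1 * x 1 + x 2 * x 2)) * (1 + (y 0 * y 0 + y 1 * y 1 + y 2 * y 2)) := by
    rw [← h3, ← h4]
    ring
  rw [h5] at h2
  nlinarith [sq_nonneg (x 0 * y 1 - x 1 * y 0), sq_nonneg (x 0 * y 2 - x 2 * y 0), sq_nonneg (x 1 * y 2 - x 2 * y 1),
    sq_nonneg (x 0 - y 0), sq_nonneg (x 1 - y 1), sq_nonneg (x 2 - y 2)]

theorem eq_of_ch (x y : H3) (hxy : ch x y = 1) : x = y := by
  obtain ⟨x, hx, hx3⟩ := x
  obtain ⟨y, hy, hy3⟩ := y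
  unfold ch at hxy
  unfold mk at *
  simp only at hxy
  have h1 : x 3 * y 3 = 1 + (x 0 * y 0 + x 1 * y 1 + x 2 * y 2) := by linarith
  have h3 : x 3 * x 3 = 1 + (x 0 * x 0 + x 1 * x 1 + x 2 * x 2) := by linarith
  have h4 : y 3 * y 3 = 1 + (y 0 * y 0 + y 1 * y 1 + y 2 * y 2) := by linarith
  have h5 : (x 3 * y 3) ^ 2 = (1 + (x 0 * x 0 + x 1 * x 1 + x 2 * x 2)) * (1 + (y 0 * y 0 + y 1 * y 1 + y 2 * y 2)) := by
    rw [← h3, ← h4]
    ring
  rw [h1] at h5
  have h6 : (x 0 - y 0) ^ 2 + (x 1 - y 1) ^ 2 + (x 2 - y 2) ^ 2 ≤ 0 := by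
    nlinarith [sq_nonneg (x 0 * y 1 - x 1 * y 0), sq_nonneg (x 0 * y 2 - x 2 * y 0), sq_nonneg (x 1 * y 2 - x 2 * y 1)]
  have h7 : x 0 - y 0 = 0 := by
    have : (x 0 - y 0) ^ 2 = 0 := by nlinarith [sq_nonneg (x 0 - y 0), sq_nonneg (x 1 - y 1), sq_nonneg (x 2 - y 2)]
    exact pow_eq_zero_iff (by norm_num) |>.mp this
  have h8 : x 1 - y 1 = 0 := by
    have : (x 1 - y 1) ^ 2 = 0 := by nlinarith [sq_nonneg (x 0 - y 0), sq_nonneg (x 1 - y 1), sq_nonneg (x 2 - y 2)]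
    exact pow_eq_zero_iff (by norm_num) |>.mp this
  have h9 : x 2 - y 2 = 0 := by
    have : (x 2 - y 2) ^ 2 = 0 := by nlinarith [sq_nonneg (x 0 - y 0), sq_nonneg (x 1 - y 1), sq_nonneg (x 2 - y 2)]
    exact pow_eq_zero_iff (by norm_num) |>.mp this
  have h7' : x 0 = y 0 := by linarith
  have h8' : x 1 = y 1 := by linarith
  have h9' : x 2 = y 2 := by linarith
  have h10 : x 3 = y 3 := by
    have : x 3 * x 3 = y 3 * y 3 := by rw [h3, h4, h7', h8', h9']
    nlinarith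
  apply Subtype.ext
  funext i
  fin_cases i
  · exact h7'
  · exact h8'
  · exact h9'
  · exact h10

theorem ctr : T_CTR := by
  intro x y z
  refine ⟨one_le_ch x y, eq_of_ch x y, ?_⟩
  have hA := one_le_ch x y
  have hB := one_le_ch y z
  have hy : mk y.1 y.1 = 1 := y.2.1
  have hx : mk x.1 x.1 = 1 := x.2.1
  have hz : mk z.1 z.1 = 1 := z.2.1
  unfold ch at *
  set A := mk x.1 y.1 with hAd
  set B := mk y.1 z.1 with hBd
  set C := mk x.1 z.1 with hCd
  have h1 : mk (B • (x.1 - A • y.1) + A • (z.1 - B • y.1)) y.1 = 0 := by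
    have : mk (B • (x.1 - A • y.1) + A • (z.1 - B • y.1)) y.1 =
      B * (A - A * mk y.1 y.1) + A * (B - B * mk y.1 y.1) := by
      rw [hAd, hBd]
      simp only [mk, Pi.add_apply, Pi.smul_apply, Pi.sub_apply, smul_eq_mul]
      ring
    rw [this, hy]
    ring
  have h2 := mk_nonpos _ y.1 (by rw [hy]; norm_num) h1
  have h3 : mk (B • (x.1 - A • y.1) + A • (z.1 - B • y.1)) (B • (x.1 - A • y.1) + A • (z.1 - B • y.1)) =
      B ^ 2 * (mk x.1 x.1) + A ^ 2 * mk z.1 z.1 + 4 * A ^ 2 * B ^ 2 * mk y.1 y.1 - 4 * A * B ^ 2 * A - 4 * A ^ 2 * B * B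
      + 2 * A * B * C := by
    rw [hCd]
    have e1 : mk (B • (x.1 - A • y.1) + A • (z.1 - B • y.1)) (B • (x.1 - A • y.1) + A • (z.1 - B • y.1)) =
      B ^ 2 * (mk x.1 x.1) + A ^ 2 * mk z.1 z.1 + 4 * A ^ 2 * B ^ 2 * mk y.1 y.1 - 4 * A * B ^ 2 * mk x.1 y.1
        - 4 * A ^ 2 * B * mk y.1 z.1 + 2 * A * B * mk x.1 z.1 := by
      simp only [mk, Pi.add_apply, Pi.smul_apply, Pi.sub_apply, smul_eq_mul]
      ring
    rw [e1]
  rw [h3, hx, hy, hz] at h2
  have h4 : A * B * C ≤ A * B * (2 * A * B) := by nlinarith [sq_nonneg A, sq_nonneg B]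
  have h5 : 0 < A * B := by positivity
  exact le_of_mul_le_mul_left h4 h5

theorem nst : T_NST := by
  intro n n' y x hn hn' hnn hy hy' hx'
  by_contra hcx
  push Not at hcx
  obtain ⟨c, hc⟩ : ∃ c, mk n n' = -c := ⟨-mk n n', by ring⟩
  have hc1 : 1 < c := by linarith
  have proj : ∀ z : V4, (c ^ 2 - 1) * mk z z ≤ (mk z n) ^ 2 + (mk z n') ^ 2 - 2 * c * mk z n * mk z n' := by
    intro z
    set p := mk z n with hp
    set r := mk z n' with hr
    have hu : 0 < mk (n - n') (n - n') := by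
      have : mk (n - n') (n - n') = mk n n + mk n' n' - 2 * mk n n' := by
        simp only [mk, Pi.sub_apply]
        ring
      rw [this, hn, hn', hc]
      linarith
    have h1 : mk ((c ^ 2 - 1) • z - (p - c * r) • n - (r - c * p) • n') (n - n') = 0 := by
      have : mk ((c ^ 2 - 1) • z - (p - c * r) • n - (r - c * p) • n') (n - n') =
        (c ^ 2 - 1) * (mk z n - mk z n') - (p - c * r) * (mk n n - mk n n') - (r - c * p) * (mk n n' - mk n' n') := by
        simp only [mk, Pi.sub_apply, Pi.smul_apply, smul_eq_mul]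
        ring
      rw [this, hn, hn', hc, ← hp, ← hr]
      ring
    have h2 := mk_nonpos _ _ hu h1
    have h3 : mk ((c ^ 2 - 1) • z - (p - c * r) • n - (r - c * p) • n')
        ((c ^ 2 - 1) • z - (p - c * r) • n - (r - c * p) • n') =
      (c ^ 2 - 1) ^ 2 * mk z z + (p - c * r) ^ 2 * mk n n + (r - c * p) ^ 2 * mk n' n'
      - 2 * (c ^ 2 - 1) * (p - c * r) * mk z n - 2 * (c ^ 2 - 1) * (r - c * p) * mk z n'
      + 2 * (p - c * r) * (r - c * p) * mk n n' := by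
      simp only [mk, Pi.sub_apply, Pi.smul_apply, smul_eq_mul]
      ring
    rw [h3, hn, hn', hc, ← hp, ← hr] at h2
    have h4 : (c ^ 2 - 1) * ((c ^ 2 - 1) * mk z z) ≤ (c ^ 2 - 1) * (p ^ 2 + r ^ 2 - 2 * c * p * r) := by
      have e : (c ^ 2 - 1) ^ 2 * mk z z + (p - c * r) ^ 2 * (-1) + (r - c * p) ^ 2 * (-1)
        - 2 * (c ^ 2 - 1) * (p - c * r) * p - 2 * (c ^ 2 - 1) * (r - c * p) * r
        + 2 * (p - c * r) * (r - c * p) * (-c) =
        (c ^ 2 - 1) * ((c ^ 2 - 1) * mk z z) - (c ^ 2 - 1) * (p ^ 2 + r ^ 2 - 2 * c * p * r) := by ring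
      linarith
    exact le_of_mul_le_mul_left h4 (by nlinarith)
  have hch : 1 ≤ mk x.1 y.1 := one_le_ch x y
  have hxx : mk x.1 x.1 = 1 := x.2.1
  have hyy : mk y.1 y.1 = 1 := y.2.1
  set p1 := mk x.1 n with hp1
  set r1 := mk x.1 n' with hr1
  set p2 := mk y.1 n with hp2
  set r2 := mk y.1 n' with hr2
  have hD1 : 0 < p1 - r1 := by linarith
  have hD2 : 0 < r2 - p2 := by linarith
  have h := proj ((r2 - p2) • x.1 + (p1 - r1) • y.1)
  have e1 : mk ((r2 - p2) • x.1 + (p1 - r1) • y.1) n = (r2 - p2) * p1 + (p1 - r1) * p2 := by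
    rw [hp1, hp2]
    simp only [mk, Pi.add_apply, Pi.smul_apply, smul_eq_mul]
    ring
  have e2 : mk ((r2 - p2) • x.1 + (p1 - r1) • y.1) n' = (r2 - p2) * p1 + (p1 - r1) * p2 := by
    have : mk ((r2 - p2) • x.1 + (p1 - r1) • y.1) n' = (r2 - p2) * r1 + (p1 - r1) * r2 := by
      rw [hr1, hr2]
      simp only [mk, Pi.add_apply, Pi.smul_apply, smul_eq_mul]
      ring
    rw [this]
    ring
  have e3 : mk ((r2 - p2) • x.1 + (p1 - r1) • y.1) ((r2 - p2) • x.1 + (p1 - r1) • y.1) =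
      (r2 - p2) ^ 2 + (p1 - r1) ^ 2 + 2 * ((r2 - p2) * (p1 - r1)) * mk x.1 y.1 := by
    have : mk ((r2 - p2) • x.1 + (p1 - r1) • y.1) ((r2 - p2) • x.1 + (p1 - r1) • y.1) =
      (r2 - p2) ^ 2 * mk x.1 x.1 + (p1 - r1) ^ 2 * mk y.1 y.1 + 2 * ((r2 - p2) * (p1 - r1)) * mk x.1 y.1 := by
      simp only [mk, Pi.add_apply, Pi.smul_apply, smul_eq_mul]
      ring
    rw [this, hxx, hyy]
    ring
  rw [e1, e2, e3] at h
  have hm : 0 < (r2 - p2) * (p1 - r1) := mul_pos hD2 hD1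
  have h5 : 0 < (r2 - p2) ^ 2 + (p1 - r1) ^ 2 + 2 * ((r2 - p2) * (p1 - r1)) * mk x.1 y.1 := by
    have : 0 < 2 * ((r2 - p2) * (p1 - r1)) * mk x.1 y.1 := by positivity
    positivity
  have h6 : 0 < (c ^ 2 - 1) * ((r2 - p2) ^ 2 + (p1 - r1) ^ 2 + 2 * ((r2 - p2) * (p1 - r1)) * mk x.1 y.1) :=
    mul_pos (by nlinarith) h5
  set q := (r2 - p2) * p1 + (p1 - r1) * p2 with hq
  have h7 : q ^ 2 + q ^ 2 - 2 * c * q * q ≤ 0 := by nlinarith [sq_nonneg q]
  linarith

/-- reversed Cauchy Schwarz inequality for a point and a timelike vector -/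
theorem rev_cs (x : H3) (u : V4) (hu : 0 < mk u u) : mk u u ≤ (mk u x.1) ^ 2 := by
  have hxx : mk x.1 x.1 = 1 := x.2.1
  have h1 : mk ((mk u u) • x.1 - (mk u x.1) • u) u = 0 := by
    have : mk ((mk u u) • x.1 - (mk u x.1) • u) u = mk u u * mk u x.1 - mk u x.1 * mk u u := by
      simp only [mk, Pi.sub_apply, Pi.smul_apply, smul_eq_mul]
      ring
    rw [this]
    ring
  have h2 := mk_nonpos _ _ hu h1
  have h3 : mk ((mk u u) • x.1 - (mk u x.1) • u) ((mk u u) • x.1 - (mk u x.1) • u) =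
      (mk u u) ^ 2 * mk x.1 x.1 - 2 * mk u u * mk u x.1 * mk u x.1 + (mk u x.1) ^ 2 * mk u u := by
    simp only [mk, Pi.sub_apply, Pi.smul_apply, smul_eq_mul]
    ring
  rw [h3, hxx] at h2
  have h4 : mk u u * mk u u ≤ mk u u * (mk u x.1) ^ 2 := by nlinarith
  exact le_of_mul_le_mul_left h4 hu

theorem mk_symm (x y : V4) : mk x y = mk y x := by
  unfold mk
  ring

theorem mk_sub_right (x y z : V4) : mk x (y - z) = mk x y - mk x z := by
  simp only [mk, Pi.sub_apply]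
  ring

theorem mk_smul_right (x y : V4) (c : ℝ) : mk x (c • y) = c * mk x y := by
  simp only [mk, Pi.smul_apply, smul_eq_mul]
  ring

theorem mk_smul_left (x y : V4) (c : ℝ) : mk (c • x) y = c * mk x y := by
  simp only [mk, Pi.smul_apply, smul_eq_mul]
  ring

theorem mk_sub_left (x y z : V4) : mk (x - y) z = mk x z - mk y z := by
  simp only [mk, Pi.sub_apply]
  ring

theorem chn (h1 : T_NST) (h2 : T_CTR) : T_CHN := by
  intro N y hN hA hC
  have hch : ∀ a b, 1 ≤ ch (y a) (y b) := fun a b => (h2 (y a) (y b) (y b)).1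
  -- square roots
  set s : ℕ → ℝ := fun i => Real.sqrt (ch (y i) (y (i + 1)) - 1) with hs
  have hs0 : ∀ i < N, 0 < s i := fun i hi => Real.sqrt_pos.mpr (by linarith [hA i hi])
  have hs2 : ∀ i < N, s i * s i = ch (y i) (y (i + 1)) - 1 := fun i hi =>
    Real.mul_self_sqrt (by linarith [hA i hi])
  set q : ℝ := Real.sqrt 2 with hq
  have hq0 : 0 < q := Real.sqrt_pos.mpr (by norm_num)
  have hq2 : q * q = 2 := Real.mul_self_sqrt (by norm_num)
  set nn : ℕ → V4 := fun i => (q * s i)⁻¹ • ((y (i + 1)).1 - (y i).1) with hnn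
  have hself : ∀ i, mk (y i).1 (y i).1 = 1 := fun i => (y i).2.1
  have hne : ∀ i < N, mk (nn i) (nn i) = -1 := by
    intro i hi
    have e1 := hs0 i hi
    have e2 := hs2 i hi
    simp only [hnn]
    rw [mk_smul_left, mk_smul_right, mk_sub_left, mk_sub_right, mk_sub_right, hself, hself,
      mk_symm (y (i + 1)).1 (y i).1]
    unfold ch at e2
    have e3 : (1 : ℝ) - mk (y i).1 (y (i + 1)).1 - (mk (y i).1 (y (i + 1)).1 - 1) = - ((q * s i) * (q * s i)) := by
      have : (q * s i) * (q * s i) = (q * q) * (s i * s i) := by ring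
      rw [this, hq2, e2]
      ring
    rw [e3]
    have e4 : q * s i ≠ 0 := by positivity
    field_simp
  have hneg : ∀ i < N, mk (y (i + 1)).1 (nn i) < 0 := by
    intro i hi
    have e1 := hs0 i hi
    have e2 := hA i hi
    simp only [hnn]
    rw [mk_smul_right, mk_sub_right, hself, mk_symm (y (i + 1)).1 (y i).1]
    unfold ch at e2
    have e4 : 0 < (q * s i)⁻¹ := by positivity
    exact mul_neg_of_pos_of_neg e4 (by linarith)
  have hpos : ∀ i < N, 0 < mk (y i).1 (nn i) := by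
    intro i hi
    have e1 := hs0 i hi
    have e2 := hA i hi
    simp only [hnn]
    rw [mk_smul_right, mk_sub_right, hself]
    unfold ch at e2
    have e4 : 0 < (q * s i)⁻¹ := by positivity
    exact mul_pos e4 (by linarith)
  have hcross : ∀ i, i + 1 < N → mk (nn i) (nn (i + 1)) < -1 := by
    intro i hi
    have e1 := hs0 i (by omega)
    have e2 := hs0 (i + 1) hi
    have e3 := hs2 i (by omega)
    have e4 := hs2 (i + 1) hi
    have e5 := hC i (by omega)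
    have e6 : Real.sqrt (ch (y i) (y (i + 2)) - 1) * Real.sqrt (ch (y i) (y (i + 2)) - 1) =
      ch (y i) (y (i + 2)) - 1 := Real.mul_self_sqrt (by linarith [hch i (i + 2)])
    have e7 : s i + s (i + 1) < Real.sqrt (ch (y i) (y (i + 2)) - 1) := e5
    have e8 : (s i + s (i + 1)) * (s i + s (i + 1)) < ch (y i) (y (i + 2)) - 1 := by
      rw [← e6]
      exact mul_self_lt_mul_self (by positivity) e7
    have e9 : mk ((y (i + 1)).1 - (y i).1) ((y (i + 1 + 1)).1 - (y (i + 1)).1) < - ((q * s i) * (q * s (i + 1))) := by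
      have t1 : (q * s i) * (q * s (i + 1)) = (q * q) * (s i * s (i + 1)) := by ring
      rw [t1, hq2, mk_sub_left, mk_sub_right, mk_sub_right, hself]
      unfold ch at e3 e4 e8
      have t2 : i + 1 + 1 = i + 2 := by ring
      rw [t2] at e4 ⊢
      linarith
    simp only [hnn]
    rw [mk_smul_left, mk_smul_right]
    have f1 : 0 < (q * s i)⁻¹ := by positivity
    have f2 : 0 < (q * s (i + 1))⁻¹ := by positivity
    have f3 := mul_lt_mul_of_pos_left e9 (mul_pos f1 f2)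
    have f4 : (q * s i)⁻¹ * (q * s (i + 1))⁻¹ * -(q * s i * (q * s (i + 1))) = -1 := by
      have g1 : q * s i ≠ 0 := by positivity
      have g2 : q * s (i + 1) ≠ 0 := by positivity
      field_simp
    rw [f4] at f3
    calc _ = (q * s i)⁻¹ * (q * s (i + 1))⁻¹ * mk ((y (i + 1)).1 - (y i).1) ((y (i + 1 + 1)).1 - (y (i + 1)).1) := by ring
      _ < -1 := f3
  have claim : ∀ k, ∀ i, i + 1 + k = N → mk (y N).1 (nn i) < 0 := by
    intro k
    induction k with
    | zero =>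
      intro i hi
      have := hneg i (by omega)
      have e : i + 1 = N := by omega
      rwa [e] at this
    | succ k ih =>
      intro i hi
      have e1 := ih (i + 1) (by omega)
      exact h1 (nn i) (nn (i + 1)) (y (i + 1)) (y N) (hne i (by omega)) (hne (i + 1) (by omega)) (hcross i (by omega))
        (hneg i (by omega)) (hpos (i + 1) (by omega)) e1
  have e1 := claim (N - 1) 0 (by omega)
  have e2 : mk (y N).1 (y 1).1 < mk (y N).1 (y 0).1 := by
    simp only [hnn] at e1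
    rw [mk_smul_right, mk_sub_right] at e1
    have f1 : 0 < (q * s 0)⁻¹ := by
      have := hs0 0 (by omega)
      positivity
    have f2 := (mul_neg_iff.mp e1)
    rcases f2 with f2 | f2
    · simpa using f2.2
    · linarith [f2.1]
  have e3 : mk ((y 0).1 + (y 1).1) ((y 0).1 + (y 1).1) = 2 + 2 * mk (y 0).1 (y 1).1 := by
    have : mk ((y 0).1 + (y 1).1) ((y 0).1 + (y 1).1) = mk (y 0).1 (y 0).1 + mk (y 1).1 (y 1).1 +
      2 * mk (y 0).1 (y 1).1 := by
      simp only [mk, Pi.add_apply]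
      ring
    rw [this, hself, hself]
    ring
  have e4 : 1 ≤ mk (y 0).1 (y 1).1 := hch 0 1
  have e5 := rev_cs (y N) ((y 0).1 + (y 1).1) (by rw [e3]; linarith)
  have e6 : mk ((y 0).1 + (y 1).1) (y N).1 = mk (y N).1 (y 0).1 + mk (y N).1 (y 1).1 := by
    simp only [mk, Pi.add_apply]
    ring
  rw [e3, e6] at e5
  have e7 : 1 ≤ mk (y N).1 (y 1).1 := hch N 1
  have e8 : mk (y N).1 (y 0).1 = mk (y 0).1 (y N).1 := mk_symm _ _
  unfold ch
  rw [e8] at e5 e2
  nlinarith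

end Pool.Agent.H29.CPX
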