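import Pool.Agent.H29.CPX.CTR

/-!
# Module QFN: the stabilizer generator has finite order
-/

namespace Pool.Agent.H29.CPX

open Pool.Agent.H57.CP

theorem apply_inv_self_aux (g : Equiv.Perm H3) (x : H3) : g (g⁻¹ x) = x := Equiv.apply_symm_apply g x

theorem inv_apply_self_aux (g : Equiv.Perm H3) (x : H3) : g⁻¹ (g x) = x := Equiv.symm_apply_apply g x

theorem iso_one : IsIso (1 : Equiv.Perm H3) := fun _ _ => rfl

theorem iso_mul {g h : Equiv.Perm H3} (hg : IsIso g) (hh : IsIso h) : IsIso (g * h) := fun x y => by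
  rw [Equiv.Perm.mul_apply, Equiv.Perm.mul_apply, hg, hh]

theorem iso_inv {g : Equiv.Perm H3} (hg : IsIso g) : IsIso g⁻¹ := fun x y => by
  have := hg (g⁻¹ x) (g⁻¹ y)
  rw [apply_inv_self_aux, apply_inv_self_aux] at this
  exact this.symm

theorem gr_iso {S T : Equiv.Perm H3} (hS : IsIso S) (hT : IsIso T) : ∀ g ∈ Gr S T, IsIso g := by
  intro g hg
  unfold Gr at hg
  induction hg using Subgroup.closure_induction with
  | mem x hx =>
    rcases hx with rfl | hx
    · exact hS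
    · rw [Set.mem_singleton_iff] at hx
      subst hx
      exact hT
  | one => exact iso_one
  | mul x y _ _ h1 h2 => exact iso_mul h1 h2
  | inv x _ h1 => exact iso_inv h1

theorem ch_sub (x y : H3) : 2 * (ch x y - 1) ≤ (x.1 0 - y.1 0) ^ 2 + (x.1 1 - y.1 1) ^ 2 + (x.1 2 - y.1 2) ^ 2 := by
  have hx : mk x.1 x.1 = 1 := x.2.1
  have hy : mk y.1 y.1 = 1 := y.2.1
  unfold ch
  unfold mk at *
  nlinarith [sq_nonneg (x.1 3 - y.1 3)]

theorem qfn (h : T_CTR) : T_QFN := by
  intro v v' S T hc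
  obtain ⟨ε, hε, hdis⟩ := hc.dis
  have hSG : S ∈ Gr S T := Subgroup.subset_closure (by simp)
  have hTG : T ∈ Gr S T := Subgroup.subset_closure (by simp)
  have hiso := gr_iso hc.iS hc.iT
  have hom : ∀ x ∈ Orb v S T, ∀ y ∈ Orb v S T, x ≠ y → 1 + ε ≤ ch x y := by
    rintro x ⟨g, hg, rfl⟩ y ⟨k, hk, rfl⟩ hne
    have h1 : ch (g v) (k v) = ch v ((g⁻¹ * k) v) := by
      have := iso_inv (hiso g hg) (g v) (k v)
      rw [inv_apply_self_aux] at this
      rw [← this]
      rfl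
    rw [h1]
    apply hdis
    · exact ⟨g⁻¹ * k, (Gr S T).mul_mem ((Gr S T).inv_mem hg) hk, rfl⟩
    · intro h2
      apply hne
      have h3 := congrArg g h2
      rw [Equiv.Perm.mul_apply, apply_inv_self_aux] at h3
      exact h3.symm
  have hp : ∀ k : ℕ, (S ^ k) v' ∈ Orb v S T := by
    intro k
    refine ⟨S ^ k * T, (Gr S T).mul_mem ((Gr S T).pow_mem hSG k) hTG, ?_⟩
    rw [Equiv.Perm.mul_apply, hc.Tv]
  have hSv : ∀ k : ℕ, (S ^ k) v = v := by
    intro k
    induction k with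
    | zero => rfl
    | succ k ih => rw [pow_succ, Equiv.Perm.mul_apply, hc.Sv, ih]
  have hb : ∀ k : ℕ, ch v ((S ^ k) v') = ch v v' := by
    intro k
    have h1 := hiso (S ^ k) ((Gr S T).pow_mem hSG k) v v'
    rw [hSv] at h1
    exact h1
  have hbo : ∀ k : ℕ, ((S ^ k) v').1 3 ≤ 2 * ch o v * ch v v' := by
    intro k
    have h1 := (h o v ((S ^ k) v')).2.2
    rw [hb] at h1
    have h2 : ch o ((S ^ k) v') = ((S ^ k) v').1 3 := by
      simp [ch, mk, o]
    rw [← h2]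
    exact h1
  by_contra hcon
  push Not at hcon
  have hdist : ∀ i j : ℕ, i < j → (S ^ i) v' ≠ (S ^ j) v' := by
    intro i j hij heq
    apply hcon (j - i) (by omega)
    have h1 : S ^ j = S ^ i * S ^ (j - i) := by
      rw [← pow_add]
      congr 1
      omega
    rw [h1, Equiv.Perm.mul_apply] at heq
    exact ((S ^ i).injective heq).symm
  set R : ℝ := 2 * ch o v * ch v v' with hR
  have hbd : ∀ k : ℕ, ∀ i, |((S ^ k) v').1 i| ≤ R := by
    intro k i
    have h1 := hbo k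
    have h2 : mk ((S ^ k) v').1 ((S ^ k) v').1 = 1 := ((S ^ k) v').2.1
    have h3 := ((S ^ k) v').2.2
    unfold mk at h2
    have h4 : 0 < R := lt_of_lt_of_le h3 h1
    have h5 : ((S ^ k) v').1 3 * ((S ^ k) v').1 3 ≤ R * R := mul_self_le_mul_self h3.le h1
    apply abs_le_of_sq_le_sq _ h4.le
    fin_cases i
    · simp only [Fin.zero_eta, Fin.isValue]
      nlinarith [sq_nonneg (((S ^ k) v').1 0), sq_nonneg (((S ^ k) v').1 1), sq_nonneg (((S ^ k) v').1 2)]
    · simp only [Fin.mk_one, Fin.isValue]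
      nlinarith [sq_nonneg (((S ^ k) v').1 0), sq_nonneg (((S ^ k) v').1 1), sq_nonneg (((S ^ k) v').1 2)]
    · simp only [Fin.reduceFinMk, Fin.isValue]
      nlinarith [sq_nonneg (((S ^ k) v').1 0), sq_nonneg (((S ^ k) v').1 1), sq_nonneg (((S ^ k) v').1 2)]
    · simp only [Fin.reduceFinMk, Fin.isValue]
      nlinarith
  have hR0 : 0 ≤ R := le_trans (abs_nonneg _) (hbd 0 0)
  obtain ⟨a, _, φ, hφ, hlim⟩ := tendsto_subseq_of_bounded (s := Metric.closedBall (0 : V4) R) Metric.isBounded_closedBall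
    (x := fun k => ((S ^ k) v').1) (by
      intro k
      rw [mem_closedBall_zero_iff, pi_norm_le_iff_of_nonneg hR0]
      exact fun i => hbd k i)
  have hcau := hlim.cauchySeq
  rw [Metric.cauchySeq_iff] at hcau
  set δ : ℝ := min 1 (ε / 3) with hδ
  have hδ0 : 0 < δ := lt_min one_pos (by positivity)
  obtain ⟨N, hN⟩ := hcau δ hδ0
  have h1 := hN N le_rfl (N + 1) (by omega)
  have h2 := hom _ (hp (φ N)) _ (hp (φ (N + 1))) (hdist _ _ (hφ (by omega)))
  have h3 := ch_sub ((S ^ φ N) v') ((S ^ φ (N + 1)) v')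
  have h4 : ∀ i, |((S ^ φ N) v').1 i - ((S ^ φ (N + 1)) v').1 i| < δ := by
    intro i
    have h5 := dist_le_pi_dist ((S ^ φ N) v').1 ((S ^ φ (N + 1)) v').1 i
    rw [Real.dist_eq] at h5
    exact lt_of_le_of_lt h5 h1
  have h5 : ∀ i, (((S ^ φ N) v').1 i - ((S ^ φ (N + 1)) v').1 i) ^ 2 < δ ^ 2 := fun i => by
    rw [← sq_abs]
    exact pow_lt_pow_left₀ (h4 i) (abs_nonneg _) (by norm_num)
  have h6 : δ ^ 2 ≤ ε / 3 := by
    have h7 : δ ≤ 1 := min_le_left _ _
    have h8 : δ ≤ ε / 3 := min_le_right _ _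
    nlinarith
  have := h5 0
  have := h5 1
  have := h5 2
  linarith

end Pool.Agent.H29.CPX
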